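import Pool.Agent.NNe.Chk
import Pool.Agent.NNe.Slots

set_option linter.all false
set_option maxRecDepth 1000000
namespace Pool.Agent.NNr.R11_5_12_14

open Pool.Agent.NNe

noncomputable def SI0_0 : Nat := (nat_lit 0xc030080200802004010040100401004000000000000)
noncomputable def SW0_0 : Nat := (nat_lit 0x160040050024010003008803c01c00d00380180040100060014002000)
noncomputable def RV0_0 : Nat := (nat_lit 0x880ab08801408802b18201e10000808803208805308804518202510000d20400e18202808804a08807008807b088083204000182000)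
noncomputable def CO0_0 : Nat := (nat_lit 0x297840290c40255840255810255800251c4016ac40166440166410166400156820156810152c4012b04012744011784011002011001)
noncomputable def Y0_0_0_1 : Nat := (nat_lit 0xe000000002000000003800000000c0000000fe00000007300000003480000000000000000f6000000032)
noncomputable def Y0_0_2_3 : Nat := (nat_lit 0x1800000000c0000000060000000030000000018000000000000000006000000003)
noncomputable def C0_0 : Cd := (Cd.mk (nat_lit 18) (nat_lit 5) (nat_lit 320) SI0_0 SW0_0 RV0_0 CO0_0 (Sl.cons (Sd.mk (nat_lit 4) (nat_lit 4) (nat_lit 0) (nat_lit 5) (Sb.cons (nat_lit 4) (nat_lit 0) (nat_lit 3) (Sb.cons (nat_lit 8) (nat_lit 3) (nat_lit 2) Sb.nil)) (Bl.r Y0_0_0_1 (nat_lit 1) Bl.nil)) (Sl.cons (Sd.mk (nat_lit 5) (nat_lit 4) (nat_lit 5) (nat_lit 7) (Sb.cons (nat_lit 4) (nat_lit 0) (nat_lit 3) (Sb.cons (nat_lit 8) (nat_lit 3) (nat_lit 4) Sb.nil)) (Bl.c Y0_0_0_1 (nat_lit 10) (nat_lit 0) Bl.nil)) (Sl.cons (Sd.mk (nat_lit 9) (nat_lit 8) (nat_lit 12) (nat_lit 4) (Sb.cons (nat_lit 4) (nat_lit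 0) (nat_lit 4) Sb.nil) (Bl.r Y0_0_2_3 (nat_lit 3) Bl.nil)) (Sl.cons (Sd.mk (nat_lit 10) (nat_lit 8) (nat_lit 16) (nat_lit 2) (Sb.cons (nat_lit 4) (nat_lit 0) (nat_lit 2) Sb.nil) (Bl.c Y0_0_2_3 (nat_lit 8) (nat_lit 2) Bl.nil)) Sl.nil)))))
noncomputable def SI0_1 : Nat := (nat_lit 0x1405014050140501405014040100401004010040100400c0300c0300c0300c0300c02008020080200802008010040100401004010040100000000000000000000)
noncomputable def SW0_1 : Nat := (nat_lit 0x1980c805402100c004001e00e00380c4052028010007c03c0170068018060027013009403a01c00b003000a02f012006c02a014005801000602e01680b004601a009802801200201580880320120088020002000)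
noncomputable def RV0_1 : Nat := (nat_lit 0x2040061820090880a40880ac08801508800e20400918200e08801108803d18201c10000608802c18201f10000908803308803a08802f08805408804618202610000e20400f18202908804b08805108804808807108807c08808420400118200108808a08800018200308805a20401218202c0880a00880a808806120401618203208805f08806c08807708808088801e982011088087982014900000)
noncomputable def CO0_1 : Nat := (nat_lit 0x2a80202a80102a7440297840290c40288840288820288810280c40269c40265410265400255840255810255800251c40249c40241c4016ac40166440166410166400156820156810152c4014ac40142c4012b04012744011784011002011001010b8401004401004100aa0400aa0200aa0100a7440097840092c4008a82008a810082c4002b04002744001784001104001101000b84000141000140)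
noncomputable def Y0_1_1_0 : Nat := (nat_lit 0x1fe00000006000000007a00000000400000001ea00000000100000007f80000000040000001fe00000000100000007f80000001000000001e000000001000000007800000000000000001f0000000040)
noncomputable def Y0_1_2_3 : Nat := (nat_lit 0xff80000000000000003fe0000000200000000f180000000800000003060000001830000000d180000000000000003fe0000000000000000ff80000000c000000034e000000000)
noncomputable def Y0_1_4_5 : Nat := (nat_lit 0x7e00000000000000001c800000000000000007600000001b0000000ff80000000000000000f200000000000000007d800000006c0000003fe0000000000000000ff80000000000000003fe000000000)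
noncomputable def C0_1 : Cd := (Cd.mk (nat_lit 52) (nat_lit 6) (nat_lit 546) SI0_1 SW0_1 RV0_1 CO0_1 (Sl.cons (Sd.mk (nat_lit 0) (nat_lit 0) (nat_lit 0) (nat_lit 8) (Sb.cons (nat_lit 0) (nat_lit 0) (nat_lit 3) (Sb.cons (nat_lit 4) (nat_lit 3) (nat_lit 3) (Sb.cons (nat_lit 8) (nat_lit 6) (nat_lit 2) Sb.nil))) (Bl.c Y0_1_1_0 (nat_lit 18) (nat_lit 1) Bl.nil)) (Sl.cons (Sd.mk (nat_lit 2) (nat_lit 0) (nat_lit 8) (nat_lit 9) (Sb.cons (nat_lit 0) (nat_lit 0) (nat_lit 3) (Sb.cons (nat_lit 4) (nat_lit 3) (nat_lit 2) (Sb.cons (nat_lit 8) (nat_lit 5) (nat_lit 4) Sb.nil))) (Bl.r Y0_1_1_0 (nat_lit 0) Bl.nil)) (Sl.cons (Sd.mk (nat_lit 4) (nat_lit 4) (nat_lit 17) (nat_lit 8) (Sb.cons (nat_lit 0) (nat_lit 0) (nat_lit 3) (Sb.cons (nat_lit 4) (nat_lit 3) (nat_lit 3) (Sb.cons (nat_lit 8) (nat_lit 6) (nat_lit 2) Sb.nil))) (Bl.r Y0_1_2_3 (nat_lit 3) Bl.nil)) (Sl.cons (Sd.mk (nat_lit 5) (nat_lit 4) (nat_lit 25) (nat_lit 9) (Sb.cons (nat_lit 0) (nat_lit 0) (nat_lit 2) (Sb.cons (nat_lit 4) (nat_lit 2) (nat_lit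 3) (Sb.cons (nat_lit 8) (nat_lit 5) (nat_lit 4) Sb.nil))) (Bl.c Y0_1_2_3 (nat_lit 16) (nat_lit 2) Bl.nil)) (Sl.cons (Sd.mk (nat_lit 9) (nat_lit 8) (nat_lit 34) (nat_lit 9) (Sb.cons (nat_lit 0) (nat_lit 0) (nat_lit 2) (Sb.cons (nat_lit 4) (nat_lit 2) (nat_lit 4) (Sb.cons (nat_lit 8) (nat_lit 6) (nat_lit 3) Sb.nil))) (Bl.r Y0_1_4_5 (nat_lit 5) Bl.nil)) (Sl.cons (Sd.mk (nat_lit 10) (nat_lit 8) (nat_lit 43) (nat_lit 9) (Sb.cons (nat_lit 0) (nat_lit 0) (nat_lit 4) (Sb.cons (nat_lit 4) (nat_lit 4) (nat_lit 2) (Sb.cons (nat_lit 8) (nat_lit 6) (nat_lit 3) Sb.nil))) (Bl.c Y0_1_4_5 (nat_lit 18) (nat_lit 4) Bl.nil)) Sl.nil)))))))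
noncomputable def SI0_2 : Nat := (nat_lit 0xc0300c0300c0300c020080200802004010040100401004000000000000)
noncomputable def SW0_2 : Nat := (nat_lit 0xb805802000b0050024008015007803801000300a004c02400d00380180040110060014002000)
noncomputable def RV0_2 : Nat := (nat_lit 0x20400718200a0880a508800f20400a18200f08801208803e18201d10000708803b08803008805b20401318202d0880a120401718203308806008806d088078088088982015900001)
noncomputable def CO0_2 : Nat := (nat_lit 0x2a80202a80102a7440288840288820288810280c40269c40265410265400249c40241c400aa0400aa0200aa0100a744008a82008a810082c4002b04002744000b84000141000140)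
noncomputable def Y0_2_1_0 : Nat := (nat_lit 0x3e00000001e000000000000000000000000003800000000000000000f800000000000000000000000000000000000e000000000000000003e00000001e)
noncomputable def Y0_2_2_3 : Nat := (nat_lit 0x7600000003b00000000c800000002400000003200000000000000001d80000000ec00000007600000003b)
noncomputable def C0_2 : Cd := (Cd.mk (nat_lit 24) (nat_lit 7) (nat_lit 772) SI0_2 SW0_2 RV0_2 CO0_2 (Sl.cons (Sd.mk (nat_lit 0) (nat_lit 0) (nat_lit 0) (nat_lit 5) (Sb.cons (nat_lit 0) (nat_lit 0) (nat_lit 3) (Sb.cons (nat_lit 8) (nat_lit 3) (nat_lit 2) Sb.nil)) (Bl.c Y0_2_1_0 (nat_lit 14) (nat_lit 1) Bl.nil)) (Sl.cons (Sd.mk (nat_lit 2) (nat_lit 0) (nat_lit 5) (nat_lit 7) (Sb.cons (nat_lit 0) (nat_lit 0) (nat_lit 3) (Sb.cons (nat_lit 8) (nat_lit 3) (nat_lit 4) Sb.nil)) (Bl.r Y0_2_1_0 (nat_lit 0) Bl.nil)) (Sl.cons (Sd.mk (nat_lit 9) (nat_lit 8) (nat_lit 12) (nat_lit 5) (Sb.cons (nat_lit 0) (nat_lit 0) (nat_lit 2) (Sb.cons (nat_lit 8) (nat_lit 2) (nat_lit 3) Sb.nil)) (Bl.r Y0_2_2_3 (nat_lit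 3) Bl.nil)) (Sl.cons (Sd.mk (nat_lit 10) (nat_lit 8) (nat_lit 17) (nat_lit 7) (Sb.cons (nat_lit 0) (nat_lit 0) (nat_lit 4) (Sb.cons (nat_lit 8) (nat_lit 4) (nat_lit 3) Sb.nil)) (Bl.c Y0_2_2_3 (nat_lit 10) (nat_lit 2) Bl.nil)) Sl.nil)))))
noncomputable def C0_3 : Cd := (Cd.mk (nat_lit 0) (nat_lit 11) (nat_lit 26) (nat_lit 0) (nat_lit 0) (nat_lit 0) (nat_lit 0) Sl.nil)
noncomputable def SI0_4 : Nat := (nat_lit 0x2008020080200802008020080200802008020080200802008020080200801c0701c0701c0701c0701c0701c07018060180601806018060180601806018060180601806018060180601806018060180601806018060180601806014050140501405014050140501405014050140501404010040100401004010040100401004010040100401004010040100400c0300c0300c0300c0300c0300c0300c0300c0300c0300c0300c0300c0300c020080200802008020080200802004010040100401004010040100401004010040100401004000000000000000000000000000)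
noncomputable def SW0_4 : Nat := (nat_lit 0xd206802b01600aa054029815c0a405101f810407c03d02000f007603a014009c03a01c00500240ce066028013c072038013009403601a004001c0c606503101840c806002f813009c04b025013409204801a80dc06803301900d8062030017809004601700c805802a01400c004c02401100300141620b004c8260118089046822c11408804380b804401000780380080ae05502bc15a0ac05582a415009704b0214104086042020c10208001680b0056021006800c14c0a305382941480a2050828012a09403f01e80fe07d03e01ec0f207803b817808e046022803000409f04f024c12407603a817408800b000800013a09c04882400e606f03a01c80e207003701b40d805c02d816808602a010026c13408f04701ac0d405902100a403e01e)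
noncomputable def RV0_4 : Nat := (nat_lit 0x8806908801d0880a708806708805e18203010001108801b08800c18200c0880af08806620401518203108801a08800d20400818200d08806508801908806808801c08806408801808805808804108805008803908804f08803808804e08803708805708804008804d08803608807488802888802098201308800a20400218200208807f88802698201690000208800808800218200508808688802588802198201790000308800708800320400318200688802408800608808d8880278880229820189000040880090880042040041820078880230880050880b108809d0880ae0880a608809f08809b08801708800b18200b2040051820080880ad08801608801020400b18201008801308809908809108803f08802e18202110000b08802a18201a08809708809508809308808f08803518201b10000508802918201908802d18202010000a08803408803c08803108809808809008805620401018202a08804320400d18202308809608809408809208808e08804c08804418202410000c08804220400c18202208805508804718202710000f08805208804908808c08807308808508807e08807608806b08807208807d08808b0880011820040880b008809c0880aa0880a308809e08809a08806308805d18202f10001008805920401118202b08805c20401418202e0880a20880a908806208808908806f08808208807a08807508806a08806e08807908808188801f982012)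
noncomputable def CO0_4 : Nat := (nat_lit 0x3aac403a8c403a74403a6c403a64403a64103a64003a4c403a44403a4410397840396c40396820396810394c40394840394820394810392c40390c4038ac40388c40382c40380c4036ac40369c40366c40365c40356c40355c40352c40351c4034ac40349c40342c40341c4032b040329c40329040329010328c40328020328010327440325c40325410325400324c40324440324410317840315c40315840315810315800314c40314840314820314810311c40310c4030b840309c40309840309810309800308c40308840308820308810301c40300c402bb8402bb0402b78402b74402b34402b30402b0c402b04402b04102b00202b0010297840290c40288840288820288810280c4027b84027b040279c40279840279810279800279040279010277840277440273440273040271c40271410271400271040271010255840255810255800251c40249c40241c4017b84017b04017ac4017a82017a81017a04017a02017a010177840177440173440173040172c4017244017241017240017204017202017201016ac4016644016641016640014ac40142c4013b84013b04013784013744013344013304012b04012744010b8401004401004100bb8400bb0400b78400b74400b34400b30400b2c400b24400b24100b24000b20400b20200b20100aa0400aa0200aa0100a7440097840092c4003b84003b04003784003744003344003304002b04002744001784001104001101)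
noncomputable def Y0_4_1_0 : Nat := (nat_lit 0x3e00000000a00000000f800000007c00000003e00000000a00000000f800000007400000003e00000001d00000000f800000007c00000003e00000000800000000f800000003000000003e00000000c00000000f800000003000000003e00000000c00000000f800000001400000003e00000000c0000003f38000001f90000000fce0000007e50000003f38000001f90000000fce0000002600000003fc00000009a0000000ff00000002e8)
noncomputable def Y0_4_2_3 : Nat := (nat_lit 0x7e00000003700000001f80000000dc00000007e00000003700000001f80000000dc00000007e00000003700000001f80000000dc003ffff86000240080000ffffe18000900a00003fffff8000240080000fffffe0000900200003fffff8000240080)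
noncomputable def Y0_4_4_5 : Nat := (nat_lit 0x7e00000000000000001f800000000000000007e00000000000000001f800000001000000007e00000000400000001f80000000ec00000007e00000000400000001f800000001000000007e00000000000000001f800000000000000007e00000000000000001f800000000000000007e00000000000000001f800000000000000007e00000003b00000001f800000001000000007e00000000400000ffe7800000021000003ff9e00000008400000ffe7800007fd2c00003ff9e00000000000000fff8000000000000003ffe0000000000)
noncomputable def Y0_4_6_6 : Nat := (nat_lit 0x80901000000000000000000000000000000000000000000000000000000000000000000001f0be10000a8050000020240400010120200008090100000000000007c24040001a120200000000000000000000000000000000000000000000000000000000000402f840002001400001709010000b848080005c240400002000020f000101102800080800000000000000000000000000000000000000000000000000000000000000000000000001e20000f8421000014020b000101105800080882c00040440000020220b000101000800000000000000000000000078f0003e108480005008102020000000000000000000000000000000000000000000000000000000000000000000000000000000000000078f1f08000848a8000081020200040810100020408080010204040008102020000000000000000000000000000001e3c7c20002122a0000)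
noncomputable def Y0_4_7_7 : Nat := (nat_lit 0x15400000000000000000000000000000000001540000000000000000000000000000000001414000000000000000000000000000000000141400000000000000000000000000000000015400000000000000000000000000000000001540000000000)
noncomputable def Y0_4_8_8 : Nat := (nat_lit 0x11ea8000000d5400000000000000000000000010a80000000000000047aa00000035500000010a800000085400000042a00000000000000010a800000085400000000000000000000000000000000000000000000000000000000002080028000000000000c3800a00041c005000208002800104001400082000a0000000000000000000000000000000000000000000000000000000000000000000000000000000000000030e002800107001400000000000000000000030f1e80001070d4000000000000000000000030f1e80001070d40000000000000000000)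
noncomputable def C0_4 : Cd := (Cd.mk (nat_lit 178) (nat_lit 4) (nat_lit 4369) SI0_4 SW0_4 RV0_4 CO0_4 (Sl.cons (Sd.mk (nat_lit 0) (nat_lit 0) (nat_lit 0) (nat_lit 11) (Sb.cons (nat_lit 4) (nat_lit 0) (nat_lit 3) (Sb.cons (nat_lit 8) (nat_lit 3) (nat_lit 2) (Sb.cons (nat_lit 12) (nat_lit 5) (nat_lit 6) Sb.nil))) (Bl.c Y0_4_1_0 (nat_lit 38) (nat_lit 1) Bl.nil)) (Sl.cons (Sd.mk (nat_lit 2) (nat_lit 0) (nat_lit 11) (nat_lit 19) (Sb.cons (nat_lit 4) (nat_lit 0) (nat_lit 2) (Sb.cons (nat_lit 8) (nat_lit 2) (nat_lit 4) (Sb.cons (nat_lit 12) (nat_lit 6) (nat_lit 13) Sb.nil))) (Bl.r Y0_4_1_0 (nat_lit 0) Bl.nil)) (Sl.cons (Sd.mk (nat_lit 4) (nat_lit 4) (nat_lit 30) (nat_lit 11) (Sb.cons (nat_lit 0) (nat_lit 0) (nat_lit 3) (Sb.cons (nat_lit 8) (nat_lit 3) (nat_lit 2) (Sb.cons (nat_lit 12) (nat_lit 5) (nat_lit 6) Sb.nil))) (Bl.r Y0_4_2_3 (nat_lit 3) Bl.nil)) (Sl.cons (Sd.mk (nat_lit 5) (nat_lit 4) (nat_lit 41) (nat_lit 25) (Sb.cons (nat_lit 0) (nat_lit 0) (nat_lit 2) (Sb.cons (nat_lit 8) (nat_lit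 2) (nat_lit 4) (Sb.cons (nat_lit 12) (nat_lit 6) (nat_lit 19) Sb.nil))) (Bl.c Y0_4_2_3 (nat_lit 22) (nat_lit 2) Bl.nil)) (Sl.cons (Sd.mk (nat_lit 9) (nat_lit 8) (nat_lit 66) (nat_lit 23) (Sb.cons (nat_lit 0) (nat_lit 0) (nat_lit 2) (Sb.cons (nat_lit 4) (nat_lit 2) (nat_lit 4) (Sb.cons (nat_lit 12) (nat_lit 6) (nat_lit 17) Sb.nil))) (Bl.r Y0_4_4_5 (nat_lit 5) Bl.nil)) (Sl.cons (Sd.mk (nat_lit 10) (nat_lit 8) (nat_lit 89) (nat_lit 17) (Sb.cons (nat_lit 0) (nat_lit 0) (nat_lit 4) (Sb.cons (nat_lit 4) (nat_lit 4) (nat_lit 2) (Sb.cons (nat_lit 12) (nat_lit 6) (nat_lit 11) Sb.nil))) (Bl.c Y0_4_4_5 (nat_lit 46) (nat_lit 4) Bl.nil)) (Sl.cons (Sd.mk (nat_lit 12) (nat_lit 12) (nat_lit 106) (nat_lit 36) (Sb.cons (nat_lit 0) (nat_lit 0) (nat_lit 11) (Sb.cons (nat_lit 4) (nat_lit 11) (nat_lit 11) (Sb.cons (nat_lit 8) (nat_lit 22) (nat_lit 14) Sb.nil))) (Bl.r Y0_4_6_6 (nat_lit 6) (Bl.c Y0_4_6_6 (nat_lit 72) (nat_lit 6) Bl.nil))) (Sl.cons (Sd.mk (nat_lit 13) (nat_lit 12) (nat_lit 142) (nat_lit 12) (Sb.cons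 (nat_lit 0) (nat_lit 0) (nat_lit 4) (Sb.cons (nat_lit 4) (nat_lit 4) (nat_lit 4) (Sb.cons (nat_lit 8) (nat_lit 8) (nat_lit 4) Sb.nil))) (Bl.r Y0_4_7_7 (nat_lit 7) (Bl.c Y0_4_7_7 (nat_lit 24) (nat_lit 7) Bl.nil))) (Sl.cons (Sd.mk (nat_lit 14) (nat_lit 12) (nat_lit 154) (nat_lit 24) (Sb.cons (nat_lit 0) (nat_lit 0) (nat_lit 4) (Sb.cons (nat_lit 4) (nat_lit 4) (nat_lit 10) (Sb.cons (nat_lit 8) (nat_lit 14) (nat_lit 10) Sb.nil))) (Bl.r Y0_4_8_8 (nat_lit 8) (Bl.c Y0_4_8_8 (nat_lit 48) (nat_lit 8) Bl.nil))) Sl.nil))))))))))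
noncomputable def CL0 : Cl := (Cl.cons C0_0 (Cl.cons C0_1 (Cl.cons C0_2 (Cl.cons C0_3 (Cl.cons C0_4 Cl.nil)))))
noncomputable def ZL0_0 : Zl := (Zl.cons (nat_lit 0) (nat_lit 0) (nat_lit 5) (Zl.cons (nat_lit 17) (nat_lit 5) (nat_lit 8) (Zl.cons (nat_lit 0) (nat_lit 0) (nat_lit 0) (Zl.cons (nat_lit 0) (nat_lit 0) (nat_lit 0) (Zl.cons (nat_lit 30) (nat_lit 13) (nat_lit 11) Zl.nil)))))
noncomputable def ZZ0 : ZZ := (ZZ.cons ZL0_0 ZZ.nil)
noncomputable def SI1_0 : Nat := (nat_lit 0xc03008020080100401004010000000000)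
noncomputable def SW1_0 : Nat := (nat_lit 0x10003003801800400d005802800a0010060024008000)
noncomputable def RV1_0 : Nat := (nat_lit 0x8805608800f08801f18200c08802308802c08802518200d18200e08802908803f088045088048182000)
noncomputable def CO1_0 : Nat := (nat_lit 0x297840290c40255840255810251c4016ac40166440166410156810152c4012b04012744011784011001)
noncomputable def Y1_0_0_1 : Nat := (nat_lit 0x20000200003000030001f000130000e00002)
noncomputable def Y1_0_2_3 : Nat := (nat_lit 0x30000000003000000000300003)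
noncomputable def C1_0 : Cd := (Cd.mk (nat_lit 14) (nat_lit 5) (nat_lit 320) SI1_0 SW1_0 RV1_0 CO1_0 (Sl.cons (Sd.mk (nat_lit 4) (nat_lit 4) (nat_lit 0) (nat_lit 4) (Sb.cons (nat_lit 4) (nat_lit 0) (nat_lit 2) (Sb.cons (nat_lit 8) (nat_lit 2) (nat_lit 2) Sb.nil)) (Bl.r Y1_0_0_1 (nat_lit 1) Bl.nil)) (Sl.cons (Sd.mk (nat_lit 5) (nat_lit 4) (nat_lit 4) (nat_lit 5) (Sb.cons (nat_lit 4) (nat_lit 0) (nat_lit 2) (Sb.cons (nat_lit 8) (nat_lit 2) (nat_lit 3) Sb.nil)) (Bl.c Y1_0_0_1 (nat_lit 8) (nat_lit 0) Bl.nil)) (Sl.cons (Sd.mk (nat_lit 9) (nat_lit 8) (nat_lit 9) (nat_lit 3) (Sb.cons (nat_lit 4) (nat_lit 0) (nat_lit 3) Sb.nil) (Bl.r Y1_0_2_3 (nat_lit 3) Bl.nil)) (Sl.cons (Sd.mk (nat_lit 10) (nat_lit 8) (nat_lit 12) (nat_lit 2) (Sb.cons (nat_lit 4) (nat_lit 0) (nat_lit 2) Sb.nil) (Bl.c Y1_0_2_3 (nat_lit 6) (nat_lit 2) Bl.nil)) Sl.nil)))))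
noncomputable def SI1_1 : Nat := (nat_lit 0x5014040100300c0300c0200801004010040000000)
noncomputable def SW1_1 : Nat := (nat_lit 0x6002803801800d0058010004008000804001e00a001802400e000)
noncomputable def RV1_1 : Nat := (nat_lit 0x8800a18200510000510000610000a20400708802a08802720400008800008802f18200f08805420400c088046888015900000)
noncomputable def CO1_1 : Nat := (nat_lit 0x28884028881026540025580016640015682014ac40142c401100201004400aa0400aa01009784008a82001784001104000140)
noncomputable def Y1_1_1_0 : Nat := (nat_lit 0x400004000010000000001000000000200000)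
noncomputable def Y1_1_2_3 : Nat := (nat_lit 0x3000010000c00000)
noncomputable def Y1_1_4_5 : Nat := (nat_lit 0x3000020000300000)
noncomputable def C1_1 : Cd := (Cd.mk (nat_lit 17) (nat_lit 6) (nat_lit 546) SI1_1 SW1_1 RV1_1 CO1_1 (Sl.cons (Sd.mk (nat_lit 0) (nat_lit 0) (nat_lit 0) (nat_lit 3) (Sb.cons (nat_lit 0) (nat_lit 0) (nat_lit 1) (Sb.cons (nat_lit 4) (nat_lit 1) (nat_lit 2) Sb.nil)) (Bl.c Y1_1_1_0 (nat_lit 8) (nat_lit 1) Bl.nil)) (Sl.cons (Sd.mk (nat_lit 2) (nat_lit 0) (nat_lit 3) (nat_lit 4) (Sb.cons (nat_lit 0) (nat_lit 0) (nat_lit 1) (Sb.cons (nat_lit 4) (nat_lit 1) (nat_lit 1) (Sb.cons (nat_lit 8) (nat_lit 2) (nat_lit 2) Sb.nil))) (Bl.r Y1_1_1_0 (nat_lit 0) Bl.nil)) (Sl.cons (Sd.mk (nat_lit 4) (nat_lit 4) (nat_lit 7) (nat_lit 2) (Sb.cons (nat_lit 0) (nat_lit 0) (nat_lit 1) (Sb.cons (nat_lit 4) (nat_lit 1) (nat_lit 1) Sb.nil)) (Bl.r Y1_1_2_3 (nat_lit 3) Bl.nil)) (Sl.cons (Sd.mk (nat_lit 5) (nat_lit 4) (nat_lit 9) (nat_lit 4) (Sb.cons (nat_lit 0) (nat_lit 0) (nat_lit 2) (Sb.cons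 (nat_lit 4) (nat_lit 2) (nat_lit 1) (Sb.cons (nat_lit 8) (nat_lit 3) (nat_lit 1) Sb.nil))) (Bl.c Y1_1_2_3 (nat_lit 4) (nat_lit 2) Bl.nil)) (Sl.cons (Sd.mk (nat_lit 9) (nat_lit 8) (nat_lit 13) (nat_lit 2) (Sb.cons (nat_lit 4) (nat_lit 0) (nat_lit 1) (Sb.cons (nat_lit 8) (nat_lit 1) (nat_lit 1) Sb.nil)) (Bl.r Y1_1_4_5 (nat_lit 5) Bl.nil)) (Sl.cons (Sd.mk (nat_lit 10) (nat_lit 8) (nat_lit 15) (nat_lit 2) (Sb.cons (nat_lit 0) (nat_lit 0) (nat_lit 2) Sb.nil) (Bl.c Y1_1_4_5 (nat_lit 4) (nat_lit 4) Bl.nil)) Sl.nil)))))))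
noncomputable def SI1_2 : Nat := (nat_lit 0x300c0300c0200802004010000000000)
noncomputable def SW1_2 : Nat := (nat_lit 0xc004001400600b00380080140010048018008000)
noncomputable def RV1_2 : Nat := (nat_lit 0x18200308805308800b08800d08802418200b08802208803008803408803c088044088049982008)
noncomputable def CO1_2 : Nat := (nat_lit 0x2a80102a7440288840280c40269c40265410241c400aa040082c4002b04002744000b84000141)
noncomputable def Y1_2_1_0 : Nat := (nat_lit 0xf0000f0000f0000f)
noncomputable def Y1_2_2_3 : Nat := (nat_lit 0xf0000600003000030000f00007)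
noncomputable def C1_2 : Cd := (Cd.mk (nat_lit 13) (nat_lit 7) (nat_lit 772) SI1_2 SW1_2 RV1_2 CO1_2 (Sl.cons (Sd.mk (nat_lit 0) (nat_lit 0) (nat_lit 0) (nat_lit 4) (Sb.cons (nat_lit 0) (nat_lit 0) (nat_lit 2) (Sb.cons (nat_lit 8) (nat_lit 2) (nat_lit 2) Sb.nil)) (Bl.c Y1_2_1_0 (nat_lit 4) (nat_lit 1) Bl.nil)) (Sl.cons (Sd.mk (nat_lit 2) (nat_lit 0) (nat_lit 4) (nat_lit 2) (Sb.cons (nat_lit 0) (nat_lit 0) (nat_lit 1) (Sb.cons (nat_lit 8) (nat_lit 1) (nat_lit 1) Sb.nil)) (Bl.r Y1_2_1_0 (nat_lit 0) Bl.nil)) (Sl.cons (Sd.mk (nat_lit 9) (nat_lit 8) (nat_lit 6) (nat_lit 3) (Sb.cons (nat_lit 0) (nat_lit 0) (nat_lit 1) (Sb.cons (nat_lit 8) (nat_lit 1) (nat_lit 2) Sb.nil)) (Bl.r Y1_2_2_3 (nat_lit 3) Bl.nil)) (Sl.cons (Sd.mk (nat_lit 10) (nat_lit 8) (nat_lit 9) (nat_lit 4) (Sb.cons (nat_lit 0) (nat_lit 0) (nat_lit 2) (Sb.cons (nat_lit 8) (nat_lit 2) (nat_lit 2) Sb.nil)) (Bl.c Y1_2_2_3 (nat_lit 6) (nat_lit 2) Bl.nil)) Sl.nil)))))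
noncomputable def C1_3 : Cd := (Cd.mk (nat_lit 0) (nat_lit 11) (nat_lit 26) (nat_lit 0) (nat_lit 0) (nat_lit 0) (nat_lit 0) Sl.nil)
noncomputable def SI1_4 : Nat := (nat_lit 0x1c0701c0701c0701c0701c0701c0701c06018060180601806018060180601806018060180601806014050140501405014050140501405010040100401004010040100300c0300c0300c0300c020080200802008020080100401004010040100401004010040100000000000000000000)
noncomputable def SW1_4 : Nat := (nat_lit 0x7203801680b005602a0120070036014009801c00c03701a80d8068029014009c04602200d0064024010007804401c00d00280100b20580260128096049010806001800b005000c0ae05602a8150090047023008003e05302281100660260128024004052028810c0840320040004000050027810407c04001f80f407803101800bc03c017027013407603a017007402c015)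
noncomputable def RV1_4 : Nat := (nat_lit 0x8803908801408803310000d08800918200420400b08803708801208803808801308803608801188801c88801708800720400190000108800218200290000220400288801a08800588801b88801890000308800608800320400388801908800408805908805008805208804e08800820400408805708801008800c20400518200608800e08802110000808801e18200a10000408801d18200908802010000720400810000920400608802d08802610000b08802b08802808804c08804108804308803b08804008804b08800118200108805808804f08805108804d08803210000c08802e20400908803120400a18201008805508803508804a08803e08804208803a08803d088047888016982007)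
noncomputable def CO1_4 : Nat := (nat_lit 0x3aac403a8c403a64403a64003a44403a4410396820392c40390c4038ac40388c40382c40380c40329c40329040328c40328020325400324440324410315800314820311c40310c40309c40309840309800308c40308840308820301c40300c402bb8402bb0402b34402b30402b04402b0020297840290c40288840288820288810280c4027984027980027904027901027140027104027101025584025580017a82017240017202016ac4016644016640014ac40142c4013b84013b04013344013304012b04010b8401004401004100bb8400bb0400b34400b30400b24400b24000b20400b20200aa0400aa0200aa010097840092c4003b84003b04003344003304002b04001784001104001101)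
noncomputable def Y1_4_1_0 : Nat := (nat_lit 0x2000000000f000080000d000000000f000000000400000000040000000004000000000500000000f4000c4000f5000c4000f4000c400070000000007000000)
noncomputable def Y1_4_2_3 : Nat := (nat_lit 0x1f0000d0001f0000d0001f000010001f00001000a000000000a000000000a000000000a000000)
noncomputable def Y1_4_4_5 : Nat := (nat_lit 0x4000040003b0000a000040000400004000040003b0000a00004000040000400000000440000400f8b0000b)
noncomputable def Y1_4_6_6 : Nat := (nat_lit 0x860000000028200000000000000000a82002000080000000000000000040082000000000000000240600400000000000000000000000000000000024800000004020000000402000000000000000002480000000)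
noncomputable def Y1_4_7_7 : Nat := (nat_lit 0x1500000000000000000015000100001500010000000000000000000000080500000009850018500000000000099000000000000000000990000100000000000)
noncomputable def C1_4 : Cd := (Cd.mk (nat_lit 90) (nat_lit 4) (nat_lit 4369) SI1_4 SW1_4 RV1_4 CO1_4 (Sl.cons (Sd.mk (nat_lit 0) (nat_lit 0) (nat_lit 0) (nat_lit 8) (Sb.cons (nat_lit 4) (nat_lit 0) (nat_lit 3) (Sb.cons (nat_lit 8) (nat_lit 3) (nat_lit 1) (Sb.cons (nat_lit 12) (nat_lit 4) (nat_lit 4) Sb.nil))) (Bl.c Y1_4_1_0 (nat_lit 26) (nat_lit 1) Bl.nil)) (Sl.cons (Sd.mk (nat_lit 2) (nat_lit 0) (nat_lit 8) (nat_lit 13) (Sb.cons (nat_lit 4) (nat_lit 0) (nat_lit 2) (Sb.cons (nat_lit 8) (nat_lit 2) (nat_lit 3) (Sb.cons (nat_lit 12) (nat_lit 5) (nat_lit 8) Sb.nil))) (Bl.r Y1_4_1_0 (nat_lit 0) Bl.nil)) (Sl.cons (Sd.mk (nat_lit 4) (nat_lit 4) (nat_lit 21) (nat_lit 8) (Sb.cons (nat_lit 0) (nat_lit 0) (nat_lit 3) (Sb.cons (nat_lit 8) (nat_lit 3) (nat_lit 1) (Sb.cons (nat_lit 12) (nat_lit 4) (nat_lit 4) Sb.nil))) (Bl.r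 Y1_4_2_3 (nat_lit 3) Bl.nil)) (Sl.cons (Sd.mk (nat_lit 5) (nat_lit 4) (nat_lit 29) (nat_lit 8) (Sb.cons (nat_lit 0) (nat_lit 0) (nat_lit 2) (Sb.cons (nat_lit 8) (nat_lit 2) (nat_lit 3) (Sb.cons (nat_lit 12) (nat_lit 5) (nat_lit 3) Sb.nil))) (Bl.c Y1_4_2_3 (nat_lit 16) (nat_lit 2) Bl.nil)) (Sl.cons (Sd.mk (nat_lit 9) (nat_lit 8) (nat_lit 37) (nat_lit 9) (Sb.cons (nat_lit 4) (nat_lit 0) (nat_lit 2) (Sb.cons (nat_lit 12) (nat_lit 2) (nat_lit 7) Sb.nil)) (Bl.r Y1_4_4_5 (nat_lit 5) Bl.nil)) (Sl.cons (Sd.mk (nat_lit 10) (nat_lit 8) (nat_lit 46) (nat_lit 12) (Sb.cons (nat_lit 0) (nat_lit 0) (nat_lit 4) (Sb.cons (nat_lit 4) (nat_lit 4) (nat_lit 2) (Sb.cons (nat_lit 12) (nat_lit 6) (nat_lit 6) Sb.nil))) (Bl.c Y1_4_4_5 (nat_lit 18) (nat_lit 4) Bl.nil)) (Sl.cons (Sd.mk (nat_lit 12) (nat_lit 12) (nat_lit 58) (nat_lit 19) (Sb.cons (nat_lit 0) (nat_lit 0) (nat_lit 8) (Sb.cons (nat_lit 4) (nat_lit 8) (nat_lit 4) (Sb.cons (nat_lit 8) (nat_lit 12) (nat_lit 7) Sb.nil))) (Bl.r Y1_4_6_6 (nat_lit 6) (Bl.c Y1_4_6_6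 (nat_lit 38) (nat_lit 6) Bl.nil))) (Sl.cons (Sd.mk (nat_lit 14) (nat_lit 12) (nat_lit 77) (nat_lit 13) (Sb.cons (nat_lit 0) (nat_lit 0) (nat_lit 4) (Sb.cons (nat_lit 4) (nat_lit 4) (nat_lit 3) (Sb.cons (nat_lit 8) (nat_lit 7) (nat_lit 6) Sb.nil))) (Bl.r Y1_4_7_7 (nat_lit 7) (Bl.c Y1_4_7_7 (nat_lit 26) (nat_lit 7) Bl.nil))) Sl.nil)))))))))
noncomputable def CL1 : Cl := (Cl.cons C1_0 (Cl.cons C1_1 (Cl.cons C1_2 (Cl.cons C1_3 (Cl.cons C1_4 Cl.nil)))))
noncomputable def AL1_0 : Nat := (nat_lit 0x3de7d)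
noncomputable def A41_0 : Nat := (nat_lit 0x3de7d)
noncomputable def IX1_0 : Nat := (nat_lit 0xd000000000000c000000000000b000000000000a00000000000000000000000009000000000000800000000000070000000000006000000000000000000000000000000000000005000000000000400000000000030000000000002000000000000100000000000000000000000000)
noncomputable def OL1_0 : Nat := (nat_lit 0x220040007800e0018002c0050009000c0014002000300040000)
noncomputable def AL1_1 : Nat := (nat_lit 0xd92366e5fd71)
noncomputable def A41_1 : Nat := (nat_lit 0x512066255431)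
noncomputable def IX1_1 : Nat := (nat_lit 0x100000000000000000000000000f000000000000000000000000000000000000000000000000000e00000000000000000000000000000000000000d000000000000000000000000000000000000000000000000000000000000000000000000000000000000000000c000000000000b00000000000000000000000000000000000000a00000000000090000000000000000000000000000000000000000000000000008000000000000000000000000000000000000007000000000000000000000000060000000000000000000000000500000000000000000000000004000000000000000000000000030000000000000000000000000000000000000000000000000000000000000000200000000000010000000000000000000000000000000000000000000000000000)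
noncomputable def OL1_1 : Nat := (nat_lit 0xb80160028004a007800e801a003200540090010001c0030005000500080000)
noncomputable def AL1_2 : Nat := (nat_lit 0x77b83e)
noncomputable def A41_2 : Nat := (nat_lit 0x73983e)
noncomputable def IX1_2 : Nat := (nat_lit 0xc000000000000b000000000000a00000000000000000000000000000000000000900000000000080000000000007000000000000000000000000000000000000006000000000000500000000000000000000000000000000000000000000000000000000000000000000000000000400000000000030000000000002000000000000100000000000000000000000000)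
noncomputable def OL1_2 : Nat := (nat_lit 0x5800a801400220040007800c00160014002000300040004)
noncomputable def AL1_3 : Nat := (nat_lit 0)
noncomputable def A41_3 : Nat := (nat_lit 0)
noncomputable def IX1_3 : Nat := (nat_lit 0)
noncomputable def OL1_3 : Nat := (nat_lit 0)
noncomputable def AL1_4 : Nat := (nat_lit 0x36f6dfc001b7fffedeffffe3e07e048056fffffffffff)
noncomputable def A41_4 : Nat := (nat_lit 0x32b20fc001b0b096def357e2e07a040056f9df35dde77)
noncomputable def IX1_4 : Nat := (nat_lit 0x5900000000000580000000000000000000000000000000000000570000000000000000000000005600000000000000000000000055000000000005400000000000000000000000000000000000005300000000000000000000000000000000000000000000000000000000000000000000000000005200000000000510000000000050000000000004f000000000004e000000000004d0000000000000000000000000000000000000000000000000000000000000000000000000000000000000000000000000000000000000000000000000000000000000000000000000000000000000000000000000000000000004c000000000004b00000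00000000000000000004a000000000004900000000000000000000000000000000000000000000000000000000000000048000000000000000000000000470000000000046000000000000000000000000000000000000000000000000000000000000000450000000000000000000000000000000000000440000000000000000000000004300000000000420000000000000000000000004100000000000400000000000000000000000003f000000000003e000000000003d000000000003c0000000000000000000000003b000000000003a000000000003900000000000380000000000000000000000000000000000000370000000000036000000000000000000000000350000000000000000000000003400000000000000000000000033000000000003200000000000310000000000030000000000002f000000000002e000000000000000000000000000000000000000000000000002d0000000000000000000000002c000000000002b000000000002a000000000000000000000000000000000000000000000000000000000000000000000000000000000000000002900000000000280000000000027000000000002600000000000000000000000025000000000000000000000000000000000000000000000000000000000000000000000000000000000000000002400000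0000000000000000000000000000000000000000000000000000000000000000000000000000000000000000000000000000000000000000000000000000000000000000000000000000023000000000000000000000000220000000000000000000000002100000000000200000000000000000000000001f000000000001e000000000001d000000000001c000000000001b00000000000000000000000000000000000001a000000000001900000000000180000000000000000000000001700000000000160000000000015000000000001400000000000130000000000000000000000000000000000000120000000000011000000000000000000000000100000000000000000000000000f000000000000e000000000000d0000000000000000000000000c000000000000b000000000000a00000000000000000000000009000000000000800000000000070000000000006000000000000000000000000000000000000005000000000000400000000000030000000000000000000000000200000000000010000000000000)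
noncomputable def OL1_4 : Nat := (nat_lit 0x16202c005680ab015202a0052809f013c027404e009b0134023004580890110020c040808000f601e003b007500e601c8038006f00dc01b4035806a00d201a0032806400c4018002f005d00b8016c02d005900aa014c0290051009401240240047008a00f80190030005c00b4015802a005200a0013802400460088010001f003c007400e00190030005800a001300240040007800e0018002c0050009000c0014002000200020000)
noncomputable def TL1 : Tl := (Tl.cons (Tr.mk AL1_0 A41_0 IX1_0 OL1_0) (Tl.cons (Tr.mk AL1_1 A41_1 IX1_1 OL1_1) (Tl.cons (Tr.mk AL1_2 A41_2 IX1_2 OL1_2) (Tl.cons (Tr.mk AL1_3 A41_3 IX1_3 OL1_3) (Tl.cons (Tr.mk AL1_4 A41_4 IX1_4 OL1_4) Tl.nil)))))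
noncomputable def ZL1_0 : Zl := (Zl.cons (nat_lit 0) (nat_lit 0) (nat_lit 14) (Zl.cons (nat_lit 0) (nat_lit 0) (nat_lit 17) (Zl.cons (nat_lit 0) (nat_lit 0) (nat_lit 13) (Zl.cons (nat_lit 0) (nat_lit 0) (nat_lit 0) (Zl.cons (nat_lit 0) (nat_lit 0) (nat_lit 90) Zl.nil)))))
noncomputable def ZZ1 : ZZ := (ZZ.cons ZL1_0 ZZ.nil)
noncomputable def SI2_0 : Nat := (nat_lit 0x20040100400)
noncomputable def SW2_0 : Nat := (nat_lit 0x30020008000001)
noncomputable def RV2_0 : Nat := (nat_lit 0x8801308800b18200208800a088011)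
noncomputable def CO2_0 : Nat := (nat_lit 0x29784016ac40156810152c4011784)
noncomputable def Y2_0_0_1 : Nat := (nat_lit 0xe0)
noncomputable def C2_0 : Cd := (Cd.mk (nat_lit 5) (nat_lit 5) (nat_lit 320) SI2_0 SW2_0 RV2_0 CO2_0 (Sl.cons (Sd.mk (nat_lit 4) (nat_lit 4) (nat_lit 0) (nat_lit 1) (Sb.cons (nat_lit 4) (nat_lit 0) (nat_lit 1) Sb.nil) (Bl.r Y2_0_0_1 (nat_lit 1) Bl.nil)) (Sl.cons (Sd.mk (nat_lit 5) (nat_lit 4) (nat_lit 1) (nat_lit 3) (Sb.cons (nat_lit 4) (nat_lit 0) (nat_lit 2) (Sb.cons (nat_lit 8) (nat_lit 2) (nat_lit 1) Sb.nil)) (Bl.c Y2_0_0_1 (nat_lit 2) (nat_lit 0) Bl.nil)) (Sl.cons (Sd.mk (nat_lit 10) (nat_lit 8) (nat_lit 4) (nat_lit 1) (Sb.cons (nat_lit 4) (nat_lit 0) (nat_lit 1) Sb.nil) Bl.nil) Sl.nil))))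
noncomputable def SI2_1 : Nat := (nat_lit 0xc0200400)
noncomputable def SW2_1 : Nat := (nat_lit 0x8002003)
noncomputable def RV2_1 : Nat := (nat_lit 0x8800110000220400008800c)
noncomputable def CO2_1 : Nat := (nat_lit 0x2888402654001100200aa04)
noncomputable def Y2_1_2_3 : Nat := (nat_lit 0x20)
noncomputable def C2_1 : Cd := (Cd.mk (nat_lit 4) (nat_lit 6) (nat_lit 546) SI2_1 SW2_1 RV2_1 CO2_1 (Sl.cons (Sd.mk (nat_lit 2) (nat_lit 0) (nat_lit 0) (nat_lit 1) (Sb.cons (nat_lit 8) (nat_lit 0) (nat_lit 1) Sb.nil) Bl.nil) (Sl.cons (Sd.mk (nat_lit 4) (nat_lit 4) (nat_lit 1) (nat_lit 1) (Sb.cons (nat_lit 4) (nat_lit 0) (nat_lit 1) Sb.nil) Bl.nil) (Sl.cons (Sd.mk (nat_lit 9) (nat_lit 8) (nat_lit 2) (nat_lit 1) (Sb.cons (nat_lit 8) (nat_lit 0) (nat_lit 1) Sb.nil) (Bl.r Y2_1_2_3 (nat_lit 3) Bl.nil)) (Sl.cons (Sd.mk (nat_lit 10) (nat_lit 8) (nat_lit 3) (nat_lit 1) (Sb.cons (nat_lit 0) (nat_lit 0) (nat_lit 1) Sb.nil) (Bl.c Y2_1_2_3 (nat_lit 2) (nat_lit 2) Bl.nil)) Sl.nil)))))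
noncomputable def SI2_2 : Nat := (nat_lit 0x200400)
noncomputable def SW2_2 : Nat := (nat_lit 0x4004000)
noncomputable def RV2_2 : Nat := (nat_lit 0x8800208800d982001)
noncomputable def CO2_2 : Nat := (nat_lit 0x2888400aa04000141)
noncomputable def Y2_2_1_0 : Nat := (nat_lit 0x20)
noncomputable def C2_2 : Cd := (Cd.mk (nat_lit 3) (nat_lit 7) (nat_lit 772) SI2_2 SW2_2 RV2_2 CO2_2 (Sl.cons (Sd.mk (nat_lit 0) (nat_lit 0) (nat_lit 0) (nat_lit 1) (Sb.cons (nat_lit 0) (nat_lit 0) (nat_lit 1) Sb.nil) (Bl.c Y2_2_1_0 (nat_lit 2) (nat_lit 1) Bl.nil)) (Sl.cons (Sd.mk (nat_lit 2) (nat_lit 0) (nat_lit 1) (nat_lit 1) (Sb.cons (nat_lit 8) (nat_lit 0) (nat_lit 1) Sb.nil) (Bl.r Y2_2_1_0 (nat_lit 0) Bl.nil)) (Sl.cons (Sd.mk (nat_lit 10) (nat_lit 8) (nat_lit 2) (nat_lit 1) (Sb.cons (nat_lit 0) (nat_lit 0) (nat_lit 1) Sb.nil) Bl.nil) Sl.nil))))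
noncomputable def C2_3 : Cd := (Cd.mk (nat_lit 0) (nat_lit 11) (nat_lit 26) (nat_lit 0) (nat_lit 0) (nat_lit 0) (nat_lit 0) Sl.nil)
noncomputable def SI2_4 : Nat := (nat_lit 0x1c07018060180501405010040100400c03008010040100400)
noncomputable def SW2_4 : Nat := (nat_lit 0x58010014009002800c0040010098044020007004000001e0120070034018006)
noncomputable def RV2_4 : Nat := (nat_lit 0x10000408800490000008800088800508800320400118200010000310000108800608800708800808800908800f08801208800e204002182003088010)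
noncomputable def CO2_4 : Nat := (nat_lit 0x3a6400388c40325400324440311c40288840288820288810279800271400271040255840166440142c401334400bb0400aa0400aa0200aa01001784)
noncomputable def Y2_4_1_0 : Nat := (nat_lit 0x2008020)
noncomputable def Y2_4_2_3 : Nat := (nat_lit 0x20)
noncomputable def Y2_4_4_5 : Nat := (nat_lit 0x280a010040)
noncomputable def Y2_4_6_6 : Nat := (nat_lit 0x8000)
noncomputable def C2_4 : Cd := (Cd.mk (nat_lit 20) (nat_lit 4) (nat_lit 4369) SI2_4 SW2_4 RV2_4 CO2_4 (Sl.cons (Sd.mk (nat_lit 0) (nat_lit 0) (nat_lit 0) (nat_lit 1) (Sb.cons (nat_lit 4) (nat_lit 0) (nat_lit 1) Sb.nil) (Bl.c Y2_4_1_0 (nat_lit 8) (nat_lit 1) Bl.nil)) (Sl.cons (Sd.mk (nat_lit 2) (nat_lit 0) (nat_lit 1) (nat_lit 4) (Sb.cons (nat_lit 8) (nat_lit 0) (nat_lit 3) (Sb.cons (nat_lit 12) (nat_lit 3) (nat_lit 1) Sb.nil)) (Bl.r Y2_4_1_0 (nat_lit 0) Bl.nil)) (Sl.cons (Sd.mk (nat_lit 4) (nat_lit 4) (nat_lit 5) (nat_lit 1) (Sb.cons (nat_lit 12) (nat_lit 0) (nat_lit 1) Sb.nil) (Bl.r Y2_4_2_3 (nat_lit 3) Bl.nil))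 (Sl.cons (Sd.mk (nat_lit 5) (nat_lit 4) (nat_lit 6) (nat_lit 2) (Sb.cons (nat_lit 0) (nat_lit 0) (nat_lit 1) (Sb.cons (nat_lit 8) (nat_lit 1) (nat_lit 1) Sb.nil)) (Bl.c Y2_4_2_3 (nat_lit 2) (nat_lit 2) Bl.nil)) (Sl.cons (Sd.mk (nat_lit 9) (nat_lit 8) (nat_lit 8) (nat_lit 4) (Sb.cons (nat_lit 4) (nat_lit 0) (nat_lit 1) (Sb.cons (nat_lit 12) (nat_lit 1) (nat_lit 3) Sb.nil)) (Bl.r Y2_4_4_5 (nat_lit 5) Bl.nil)) (Sl.cons (Sd.mk (nat_lit 10) (nat_lit 8) (nat_lit 12) (nat_lit 3) (Sb.cons (nat_lit 0) (nat_lit 0) (nat_lit 3) Sb.nil) (Bl.c Y2_4_4_5 (nat_lit 8) (nat_lit 4) Bl.nil)) (Sl.cons (Sd.mk (nat_lit 12) (nat_lit 12) (nat_lit 15) (nat_lit 3) (Sb.cons (nat_lit 4) (nat_lit 0) (nat_lit 1) (Sb.cons (nat_lit 8) (nat_lit 1) (nat_lit 2) Sb.nil)) (Bl.r Y2_4_6_6 (nat_lit 6) (Bl.c Y2_4_6_6 (nat_lit 6) (nat_lit 6) Bl.nil))) (Sl.cons (Sd.mk (nat_lit 14) (nat_lit 12) (nat_lit 18) (nat_lit 2) (Sb.cons (nat_lit 0) (nat_lit 0) (nat_lit 1) (Sb.cons (nat_lit 8) (nat_lit 1) (nat_lit 1) Sb.nil)) Bl.nil) Sl.nil)))))))))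
noncomputable def CL2 : Cl := (Cl.cons C2_0 (Cl.cons C2_1 (Cl.cons C2_2 (Cl.cons C2_3 (Cl.cons C2_4 Cl.nil)))))
noncomputable def AL2_0 : Nat := (nat_lit 0x333f)
noncomputable def A42_0 : Nat := (nat_lit 0x2132)
noncomputable def IX2_0 : Nat := (nat_lit 0x40000000000000000000000000000000000000000000000000000000000000000300000000000000000000000000000000000000200000000000010000000000000000000000000000000000000000000000000000)
noncomputable def OL2_0 : Nat := (nat_lit 0x34004000500080004)
noncomputable def AL2_1 : Nat := (nat_lit 0x14344)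
noncomputable def A42_1 : Nat := (nat_lit 0x14140)
noncomputable def IX2_1 : Nat := (nat_lit 0x30000000000000000000000000200000000000000000000000000000000000000000000000000000000000000000000000000000100000000000000000000000000000000000000000000000000000000000000000000000000000000000000000000000000000000)
noncomputable def OL2_1 : Nat := (nat_lit 0x8000e00100018)
noncomputable def AL2_2 : Nat := (nat_lit 0xfff)
noncomputable def A42_2 : Nat := (nat_lit 0x421)
noncomputable def IX2_2 : Nat := (nat_lit 0x20000000000000000000000000000000000000000000000000000000000000000100000000000000000000000000000000000000000000000000000000000000000)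
noncomputable def OL2_2 : Nat := (nat_lit 0xa000a0000)
noncomputable def AL2_3 : Nat := (nat_lit 0)
noncomputable def A42_3 : Nat := (nat_lit 0)
noncomputable def IX2_3 : Nat := (nat_lit 0)
noncomputable def OL2_3 : Nat := (nat_lit 0)
noncomputable def AL2_4 : Nat := (nat_lit 0xf6e18c0003ff61be081ccc)
noncomputable def A42_4 : Nat := (nat_lit 0x4081880003934124081c04)
noncomputable def IX2_4 : Nat := (nat_lit 0x13000000000000000000000000000000000000000000000000000000000000000000000000000000000000000001200000000000000000000000000000000000000000000000000000000000000000000000000000000000000000110000000000010000000000000000000000000000000000000000000000000000f00000000000000000000000000000000000000000000000000000000000000000000000000000000000000000000000000000000000000000000000000000000000000000000000000000000000000000000000000000000000000000000000000000000000000000000000000000000000000000e000000000000d000000000000c00000000000000000000000000000000000000b0000000000000000000000000000000000000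0a00000000000090000000000000000000000000800000000000000000000000000000000000000000000000000000000000000000000000000000700000000000000000000000000000000000000600000000000000000000000000000000000000500000000000000000000000000000000000000000000000000000000000000000000000000000000000000000040000000000000000000000000000000000000000000000000000000000000000000000000000000000000000003000000000000200000000000010000000000000000000000000000000000000000000000000000000000000000000000000000000000000000000000000000000000000000000000000000000000)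
noncomputable def OL2_4 : Nat := (nat_lit 0x2b004f0090011c0218031006000bc016002900500098010001d0034004c006000b00140008)
noncomputable def TL2 : Tl := (Tl.cons (Tr.mk AL2_0 A42_0 IX2_0 OL2_0) (Tl.cons (Tr.mk AL2_1 A42_1 IX2_1 OL2_1) (Tl.cons (Tr.mk AL2_2 A42_2 IX2_2 OL2_2) (Tl.cons (Tr.mk AL2_3 A42_3 IX2_3 OL2_3) (Tl.cons (Tr.mk AL2_4 A42_4 IX2_4 OL2_4) Tl.nil)))))
noncomputable def ZL2_0 : Zl := (Zl.cons (nat_lit 0) (nat_lit 0) (nat_lit 1) (Zl.cons (nat_lit 1) (nat_lit 1) (nat_lit 1) (Zl.cons (nat_lit 0) (nat_lit 0) (nat_lit 0) (Zl.cons (nat_lit 0) (nat_lit 0) (nat_lit 0) (Zl.cons (nat_lit 5) (nat_lit 2) (nat_lit 1) Zl.nil)))))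
noncomputable def ZZ2 : ZZ := (ZZ.cons ZL2_0 ZZ.nil)
def wf0_0 : wfC (nat_lit 37) (nat_lit 2) C0_0 = true := by decide +kernel
def pl0_0 : plCk (nat_lit 37) (nat_lit 2) (nat_lit 11) (nat_lit 1) (nat_lit 0) (nat_lit 6) (nat_lit 5) (nat_lit 4) (nat_lit 0) nl0 CL0 = true := by decide +kernel
def wf0_1 : wfC (nat_lit 37) (nat_lit 2) C0_1 = true := by decide +kernel
def pl0_1 : plCk (nat_lit 37) (nat_lit 2) (nat_lit 11) (nat_lit 1) (nat_lit 0) (nat_lit 6) (nat_lit 5) (nat_lit 4) (nat_lit 1) nl0 CL0 = true := by decide +kernel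
def wf0_2 : wfC (nat_lit 37) (nat_lit 2) C0_2 = true := by decide +kernel
def pl0_2 : plCk (nat_lit 37) (nat_lit 2) (nat_lit 11) (nat_lit 1) (nat_lit 0) (nat_lit 6) (nat_lit 5) (nat_lit 4) (nat_lit 2) nl0 CL0 = true := by decide +kernel
def wf0_4 : wfC (nat_lit 37) (nat_lit 2) C0_4 = true := by decide +kernel
def pl0_4 : plCk (nat_lit 37) (nat_lit 2) (nat_lit 11) (nat_lit 1) (nat_lit 0) (nat_lit 6) (nat_lit 5) (nat_lit 4) (nat_lit 4) nl0 CL0 = true := by decide +kernel
def ti0_0 : tileCk (nat_lit 37) (nat_lit 2) (nat_lit 1) (nat_lit 1) (nat_lit 24) (nat_lit 11) (nat_lit 5) ZL0_0 CL0 = true := by decide +kernel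
def zl0_0 : zlOK (nat_lit 24) ZL0_0 = true := by decide +kernel
def tc0_0 : tiCov (nat_lit 1) (nat_lit 0) ZZ0 C0_0 = true := by decide +kernel
def tc0_1 : tiCov (nat_lit 1) (nat_lit 1) ZZ0 C0_1 = true := by decide +kernel
def tc0_2 : tiCov (nat_lit 1) (nat_lit 2) ZZ0 C0_2 = true := by decide +kernel
def tc0_4 : tiCov (nat_lit 1) (nat_lit 4) ZZ0 C0_4 = true := by decide +kernel
def wf1_0 : wfC (nat_lit 20) (nat_lit 2) C1_0 = true := by decide +kernel
def rf1_0 : rfCk (nat_lit 37) (nat_lit 2) (nat_lit 20) (nat_lit 2) (nat_lit 9) (nat_lit 0) (nat_lit 0) TL1 CL0 CL1 = true := by decide +kernel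
def st1_0_0 : starCk (nat_lit 20) (nat_lit 2) (nat_lit 1) (nat_lit 1) (nat_lit 3) (nat_lit 9) (nat_lit 256) C1_0 = true := by decide +kernel
def sc1_0 : stCov (nat_lit 2) (nat_lit 9) (Rl.cons (nat_lit 9) (nat_lit 3) Rl.nil) C1_0 = true := by decide +kernel
def wf1_1 : wfC (nat_lit 20) (nat_lit 2) C1_1 = true := by decide +kernel
def rf1_1 : rfCk (nat_lit 37) (nat_lit 2) (nat_lit 20) (nat_lit 2) (nat_lit 9) (nat_lit 0) (nat_lit 1) TL1 CL0 CL1 = true := by decide +kernel
def st1_1_0 : starCk (nat_lit 20) (nat_lit 2) (nat_lit 1) (nat_lit 1) (nat_lit 2) (nat_lit 7) (nat_lit 16) C1_1 = true := by decide +kernel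
def sc1_1 : stCov (nat_lit 1) (nat_lit 7) (Rl.cons (nat_lit 7) (nat_lit 2) Rl.nil) C1_1 = true := by decide +kernel
def wf1_2 : wfC (nat_lit 20) (nat_lit 2) C1_2 = true := by decide +kernel
def rf1_2 : rfCk (nat_lit 37) (nat_lit 2) (nat_lit 20) (nat_lit 2) (nat_lit 9) (nat_lit 0) (nat_lit 2) TL1 CL0 CL1 = true := by decide +kernel
def st1_2_0 : starCk (nat_lit 20) (nat_lit 2) (nat_lit 1) (nat_lit 1) (nat_lit 2) (nat_lit 4) (nat_lit 1) C1_2 = true := by decide +kernel
def sc1_2 : stCov (nat_lit 0) (nat_lit 4) (Rl.cons (nat_lit 4) (nat_lit 2) Rl.nil) C1_2 = true := by decide +kernel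
def wf1_4 : wfC (nat_lit 20) (nat_lit 2) C1_4 = true := by decide +kernel
def rf1_4 : rfCk (nat_lit 37) (nat_lit 2) (nat_lit 20) (nat_lit 2) (nat_lit 9) (nat_lit 0) (nat_lit 4) TL1 CL0 CL1 = true := by decide +kernel
def st1_4_0 : starCk (nat_lit 20) (nat_lit 2) (nat_lit 1) (nat_lit 1) (nat_lit 8) (nat_lit 21) (nat_lit 16) C1_4 = true := by decide +kernel
def sc1_4 : stCov (nat_lit 1) (nat_lit 21) (Rl.cons (nat_lit 21) (nat_lit 8) Rl.nil) C1_4 = true := by decide +kernel
def wf2_0 : wfC (nat_lit 5) (nat_lit 2) C2_0 = true := by decide +kernel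
def rf2_0 : rfCk (nat_lit 20) (nat_lit 2) (nat_lit 5) (nat_lit 2) (nat_lit 9) (nat_lit 0) (nat_lit 0) TL2 CL1 CL2 = true := by decide +kernel
def wf2_1 : wfC (nat_lit 5) (nat_lit 2) C2_1 = true := by decide +kernel
def rf2_1 : rfCk (nat_lit 20) (nat_lit 2) (nat_lit 5) (nat_lit 2) (nat_lit 9) (nat_lit 0) (nat_lit 1) TL2 CL1 CL2 = true := by decide +kernel
def wf2_2 : wfC (nat_lit 5) (nat_lit 2) C2_2 = true := by decide +kernel
def rf2_2 : rfCk (nat_lit 20) (nat_lit 2) (nat_lit 5) (nat_lit 2) (nat_lit 9) (nat_lit 0) (nat_lit 2) TL2 CL1 CL2 = true := by decide +kernel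
def wf2_4 : wfC (nat_lit 5) (nat_lit 2) C2_4 = true := by decide +kernel
def rf2_4 : rfCk (nat_lit 20) (nat_lit 2) (nat_lit 5) (nat_lit 2) (nat_lit 9) (nat_lit 0) (nat_lit 4) TL2 CL1 CL2 = true := by decide +kernel
def ti2_0 : tileCk (nat_lit 5) (nat_lit 2) (nat_lit 1) (nat_lit 1) (nat_lit 3) (nat_lit 11) (nat_lit 5) ZL2_0 CL2 = true := by decide +kernel
def zl2_0 : zlOK (nat_lit 3) ZL2_0 = true := by decide +kernel
def tc2_0 : tiCov (nat_lit 1) (nat_lit 0) ZZ2 C2_0 = true := by decide +kernel
def tc2_1 : tiCov (nat_lit 1) (nat_lit 1) ZZ2 C2_1 = true := by decide +kernel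
def tc2_2 : tiCov (nat_lit 1) (nat_lit 2) ZZ2 C2_2 = true := by decide +kernel
def tc2_4 : tiCov (nat_lit 1) (nat_lit 4) ZZ2 C2_4 = true := by decide +kernel
def de2_0 : deadCk (nat_lit 5) (nat_lit 2) C2_0 = true := by decide +kernel
def de2_1 : deadCk (nat_lit 5) (nat_lit 2) C2_1 = true := by decide +kernel
def de2_2 : deadCk (nat_lit 5) (nat_lit 2) C2_2 = true := by decide +kernel
def de2_4 : deadCk (nat_lit 5) (nat_lit 2) C2_4 = true := by decide +kernel
def wf0_3 : wfC (nat_lit 37) (nat_lit 2) C0_3 = true := by decide +kernel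
def pl0_3 : plCk (nat_lit 37) (nat_lit 2) (nat_lit 11) (nat_lit 1) (nat_lit 0) (nat_lit 6) (nat_lit 5) (nat_lit 4) (nat_lit 3) nl0 CL0 = true := by decide +kernel
def sc0_0 : stCov (nat_lit 1) (nat_lit 0) (Rl.cons (nat_lit 0) (nat_lit 18) Rl.nil) C0_0 = true := by decide +kernel
def sc0_1 : stCov (nat_lit 0) (nat_lit 0) (Rl.cons (nat_lit 0) (nat_lit 52) Rl.nil) C0_1 = true := by decide +kernel
def sc0_2 : stCov (nat_lit 0) (nat_lit 0) (Rl.cons (nat_lit 0) (nat_lit 24) Rl.nil) C0_2 = true := by decide +kernel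
def sc0_3 : stCov (nat_lit 0) (nat_lit 0) Rl.nil C0_3 = true := by decide +kernel
def sc0_4 : stCov (nat_lit 0) (nat_lit 0) (Rl.cons (nat_lit 0) (nat_lit 178) Rl.nil) C0_4 = true := by decide +kernel
def tc0_3 : tiCov (nat_lit 1) (nat_lit 3) ZZ0 C0_3 = true := by decide +kernel
def wf1_3 : wfC (nat_lit 20) (nat_lit 2) C1_3 = true := by decide +kernel
def rf1_3 : rfCk (nat_lit 37) (nat_lit 2) (nat_lit 20) (nat_lit 2) (nat_lit 9) (nat_lit 0) (nat_lit 3) TL1 CL0 CL1 = true := by decide +kernel
def zl1_0 : zlOK (nat_lit 90) ZL1_0 = true := by decide +kernel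
def sc1_3 : stCov (nat_lit 0) (nat_lit 0) Rl.nil C1_3 = true := by decide +kernel
def tc1_0 : tiCov (nat_lit 1) (nat_lit 0) ZZ1 C1_0 = true := by decide +kernel
def tc1_1 : tiCov (nat_lit 1) (nat_lit 1) ZZ1 C1_1 = true := by decide +kernel
def tc1_2 : tiCov (nat_lit 1) (nat_lit 2) ZZ1 C1_2 = true := by decide +kernel
def tc1_3 : tiCov (nat_lit 1) (nat_lit 3) ZZ1 C1_3 = true := by decide +kernel
def tc1_4 : tiCov (nat_lit 1) (nat_lit 4) ZZ1 C1_4 = true := by decide +kernel
def wf2_3 : wfC (nat_lit 5) (nat_lit 2) C2_3 = true := by decide +kernel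
def rf2_3 : rfCk (nat_lit 20) (nat_lit 2) (nat_lit 5) (nat_lit 2) (nat_lit 9) (nat_lit 0) (nat_lit 3) TL2 CL1 CL2 = true := by decide +kernel
def sc2_0 : stCov (nat_lit 1) (nat_lit 0) (Rl.cons (nat_lit 0) (nat_lit 5) Rl.nil) C2_0 = true := by decide +kernel
def sc2_1 : stCov (nat_lit 0) (nat_lit 0) (Rl.cons (nat_lit 0) (nat_lit 4) Rl.nil) C2_1 = true := by decide +kernel
def sc2_2 : stCov (nat_lit 0) (nat_lit 0) (Rl.cons (nat_lit 0) (nat_lit 3) Rl.nil) C2_2 = true := by decide +kernel
def sc2_3 : stCov (nat_lit 0) (nat_lit 0) Rl.nil C2_3 = true := by decide +kernel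
def sc2_4 : stCov (nat_lit 0) (nat_lit 0) (Rl.cons (nat_lit 0) (nat_lit 20) Rl.nil) C2_4 = true := by decide +kernel
def tc2_3 : tiCov (nat_lit 1) (nat_lit 3) ZZ2 C2_3 = true := by decide +kernel
def de2_3 : deadCk (nat_lit 5) (nat_lit 2) C2_3 = true := by decide +kernel

end Pool.Agent.NNr.R11_5_12_14
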